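import Mathlib
import Pool.Agent.H.MP_5335f7_al.Main

namespace Pool.Agent.Results.MP_5335f7_al.TwoGen

universe u

/-- `G` is solvable of derived length exactly `l`. -/
def HasDerivedLength (G : Type u) [Group G] (l : ℕ) : Prop :=
  IsLeast {m : ℕ | derivedSeries G m = ⊥} l

open Pool.Agent.H.MP_5335f7_al

theorem result (l : ℕ) (hl : 1 ≤ l) (G : Type u) [Group G] [Group.FG G]
    (hG : HasDerivedLength G l) :
    ∃ (H : Type u) (_ : Group H) (x y : H) (j : G →* H),
      Subgroup.closure {x, y} = ⊤ ∧ HasDerivedLength H (l + 1) ∧ Function.Injective j := by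
  obtain ⟨k, rfl⟩ : ∃ k, l = k + 1 := ⟨l - 1, by omega⟩
  obtain ⟨H, _, x, y, j, h1, h2, h3, h4⟩ := main G k hG.1
  refine ⟨H, inferInstance, x, y, j, h1, ⟨h2, fun m hm => ?_⟩, h3⟩
  by_contra hlt
  have h5 : derivedSeries H (k + 1) = ⊥ :=
    le_bot_iff.1 ((derivedSeries_antitone H (by omega : m ≤ k + 1)).trans hm.le)
  have := hG.2 (der_inj j h3 (der_map j h4 k) h5)
  omega

end Pool.Agent.Results.MP_5335f7_al.TwoGen
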